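import Pool.Agent.Y48.CT.SEL
import Pool.Agent.Y350.CT.REC
import Pool.Agent.Y180.CT.Loc3
import Pool.Agent.Y153.CT.RAM
import Pool.Agent.Y155.CT.Mwk
import Pool.Agent.Y155.CT.Act
import Pool.Agent.Y692.CT.Desq
import Pool.Agent.Y274.CT.ExiCnt
import Pool.Agent.Y405.CT.Cri
import Pool.Agent.Y703.CT.StmG
import Pool.Agent.Y703.CT.Kloc
import Pool.Agent.Y319.CT.CONVQ
import Pool.Agent.Y319.CT.FF
import Pool.Agent.Y379.CT.Cub
import Pool.Agent.Y379.CT.Ramc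
import Pool.Agent.Y100.CT.CUB3
import Pool.Agent.Y674.CT.PT
import Pool.Agent.Y737.CT.OddEven
import Pool.Agent.Y809.CT.Shq
import Pool.Agent.Y781.CT.Last
import Pool.Agent.Y681.CT.Finc
import Pool.Agent.Y894.CT.EXT

/-!
# Cubic twists: the algebraic part of project CT with a small import closure (helper395)

The theorem `triv3_iff`: for `D` in the class `Cls`, the group `E_D(ℚ)` is finite with trivial
`3`-primary part of the Tate-Shafarevich group iff `NoSplit D`.  The proofs are those of helper703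
(`Y703/CT/T1.lean`, `T1b.lean`, `T1d.lean`), copied without the analytic part, so that this file
does not import the Euler systems, the theta functions etc. (about 150 modules instead of 540).
-/

set_option autoImplicit false
set_option linter.unusedSectionVars false

open scoped Classical

namespace Pool.Agent.R395.CT

open Pool.Agent.Y703.CT
open Pool.Agent.Y692.QS (Ei w nr toC)
open Pool.Agent.Y715.T.Rec (cs)
open Pool.Agent.Y715.T.RecG (Pq)
open Pool.Agent.Y715.T.Gi Pool.Agent.Y715.T.Nr Pool.Agent.Y715.T.Df Pool.Agent.Y715.T.Ell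
open Pool.Agent.TH841.SH.D (Sha)

/-! ### descent -/

section desc

variable {i₀ : QB} {hi : i₀ ^ 2 + i₀ + 1 = 0}

/-- the cube root and its character -/
lemma exists_tw (hi : i₀ ^ 2 + i₀ + 1 = 0) {D : Ei} (hD : D ≠ 0) :
    ∃ (u : QB) (a : GK i₀ → ZMod 3), Tw hi D u a := by
  obtain ⟨u, hu⟩ := Pool.Agent.Y715.T.Sel.ex_root (ev i₀ hi D)
  have h3 : i₀ ^ 3 = 1 := i₀_cube hi
  have hc : ∀ σ : GK i₀, ∃ c : ZMod 3, σ u = i₀ ^ (-c).val * u := by
    intro σ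
    have h1 : (σ u) ^ 3 = u ^ 3 := by rw [← map_pow, hu, gk_ev]
    obtain ⟨n, hn⟩ := cube_eq hi h1
    refine ⟨-(n : ZMod 3), ?_⟩
    rw [neg_neg, ZMod.val_natCast, hn]
    congr 1
    conv_lhs => rw [← Nat.div_add_mod n 3]
    rw [pow_add, pow_mul, h3, one_pow, one_mul]
  choose a ha using hc
  exact ⟨u, a, hu, ha⟩

/-- `D` is not a cube -/
lemma a_ne {J : Type} [Fintype J] [Nonempty J] {π : J → Ei} {e : J → ZMod 3} (hD : Dt π e)
    {u : QB} {a : GK i₀ → ZMod 3} (hT : Tw hi (pD π e) u a) : ∃ σ, a σ ≠ 0 := by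
  by_contra hcon
  push Not at hcon
  have hne : pD π e ≠ 0 := Pool.Agent.Y153.CTRAM.ne_zero_of hD
  obtain ⟨j⟩ := (inferInstance : Nonempty J)
  have hb : Kc hi (pD π e) (fun σ => -a σ) :=
    kc_of hi (Pool.Agent.Y715.T.Sel.root_ne (hi := hi) hne hT.cube) hT.cube hT.act
  obtain ⟨p, hp, ι, hl⟩ := exists_emb hi (hD.pq j).prime
  have hp3 := Pool.Agent.Y715.T.Sel.odd_of hi ι (hD.pq j).prime hl
    (Pool.Agent.Y48.CT.SEL.not_assoc_lam (hD.pq j))
  have hcf : CF (pD π e) := Pool.Agent.Y48.CT.SEL.cf_prod hD e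
  refine Pool.Agent.Y715.T.Sel.not_dvd_of_unr hcf hb hp3 ι (hD.pq j).prime hl
    (fun τ σ _ _ => by rw [hcon σ, neg_zero]) ?_
  unfold pD
  refine (dvd_pow_self (π j) ?_).trans (Finset.dvd_prod_of_mem _ (Finset.mem_univ j))
  rw [Ne, ZMod.val_eq_zero]
  exact hD.e0 j

theorem descK {J : Type} [Fintype J] [Nonempty J] {π : J → Ei} {e : J → ZMod 3} (hD : Dt π e)
    (hk : Ker π e) (h9 : ¬ (9 : ℤ) ∣ nr (pD π e) - 1)
    {u : QB} {a : GK i₀ → ZMod 3} (hT : Tw hi (pD π e) u a) : ShK hi a ∧ MwK hi a := by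
  have hne : pD π e ≠ 0 := Pool.Agent.Y153.CTRAM.ne_zero_of hD
  have hsel : Sel1 hi a := Pool.Agent.Y48.CT.SEL.t_SEL Pool.Agent.Y350.CT.rec
    Pool.Agent.Y180.CT.t_loc3 Pool.Agent.Y153.CTRAM.t_RAM Pool.Agent.Y153.CTRAM.t_UNR
    J π e hD hk h9 i₀ hi u a hT
  exact ⟨Pool.Agent.Y155.CT.t_SHK _ hne i₀ hi u a hT hsel,
    Pool.Agent.Y155.CT.t_MWK _ hne i₀ hi u a hT (a_ne hD hT) hsel⟩

end desc

theorem descQ {D : ℕ} {J : Type} [Fintype J] [Nonempty J] {π : J → Ei} {e : J → ZMod 3}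
    (hD : Dt π e) (hk : Ker π e) (h9 : ¬ (9 : ℤ) ∣ nr (pD π e) - 1)
    (hDp : (D : Ei) = pD π e ∨ (D : Ei) = -pD π e) :
    Finite (EQ (WD D)).toAffine.Point ∧
    padicValNat 3 (Nat.card (EQ (WD D)).toAffine.Point) = 1 ∧
    ∀ (n : ℕ) (x : Sha (EQ (WD D))), 3 ^ n • x = 0 → x = 0 := by
  obtain ⟨i₀, hi⟩ : ∃ i₀ : QB, i₀ ^ 2 + i₀ + 1 = 0 := by
    obtain ⟨x, hx⟩ := IsAlgClosed.exists_root
      (Polynomial.X ^ 2 + Polynomial.X + 1 : Polynomial QB) (by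
        have : (Polynomial.X ^ 2 + Polynomial.X + 1 : Polynomial QB).degree = 2 := by
          compute_degree!
        rw [this]
        norm_num)
    refine ⟨x, ?_⟩
    have h1 := hx
    rw [Polynomial.IsRoot] at h1
    simpa using h1
  have hne : pD π e ≠ 0 := Pool.Agent.Y153.CTRAM.ne_zero_of hD
  obtain ⟨u, a, hT⟩ := exists_tw hi hne
  obtain ⟨h1, h2⟩ := descK hD hk h9 hT
  have hD0 : (D : ℤ) ≠ 0 := by
    intro h0
    have h3 : (D : Ei) = 0 := by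
      have : ((D : ℤ) : Ei) = 0 := by rw [h0]; exact Int.cast_zero
      simpa using this
    rcases hDp with h | h
    · exact hne (by rw [← h, h3])
    · exact hne (by rw [← neg_eq_zero, ← h, h3])
  rcases hDp with h | h
  · have hT' : Tw hi ((D : ℤ) : Ei) u a := by
      have e1 : ((D : ℤ) : Ei) = pD π e := by rw [Int.cast_natCast, h]
      rw [e1]
      exact hT
    exact Pool.Agent.Y692.CT.desq D hD0 i₀ hi u a hT' h1 h2
  · have hT' : Tw hi ((D : ℤ) : Ei) (-u) a := by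
      have e1 : ((D : ℤ) : Ei) = -pD π e := by rw [Int.cast_natCast, h]
      rw [e1]
      refine ⟨?_, fun σ => ?_⟩
      · rw [Odd.neg_pow (by decide), hT.cube, map_neg]
      · rw [map_neg, hT.act σ]
        ring
    exact Pool.Agent.Y692.CT.desq D hD0 i₀ hi (-u) a hT' h1 h2

/-! ### the value -/

lemma nr_nine {D : ℕ} (hD : Cls D) {x : Ei} (hx : (D : Ei) = x ∨ (D : Ei) = -x) :
    ¬ (9 : ℤ) ∣ nr x - 1 := by
  have h1 : nr x = (D : ℤ) ^ 2 := by
    have h2 : nr (D : Ei) = (D : ℤ) ^ 2 := Pool.Agent.Y692.QS.nr_nat D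
    rw [← h2]
    rcases hx with h | h
    · rw [h]
    · have e : x = -(D : Ei) := by rw [h, neg_neg]
      rw [e]
      unfold Pool.Agent.Y692.QS.nr
      simp
  rw [h1]
  obtain ⟨⟨-, h3, -⟩, h4, h5, -⟩ := hD
  intro h9
  have h6 : (D : ℤ) % 9 = ((D % 9 : ℕ) : ℤ) := by push_cast; rfl
  have h7 : ((D : ℤ) ^ 2 - 1) % 9 = 0 := Int.emod_eq_zero_of_dvd h9
  have h8 : D % 9 < 9 := Nat.mod_lt _ (by norm_num)
  have h10 : D % 9 % 3 ≠ 0 := by omega
  have h11 : ((D : ℤ) ^ 2 - 1) % 9 = (((D : ℤ) % 9) ^ 2 - 1) % 9 := by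
    rw [Int.sub_emod, pow_two, Int.mul_emod, ← pow_two, ← Int.sub_emod]
  rw [h11, h6] at h7
  generalize D % 9 = r at *
  interval_cases r <;> simp_all

/-- `E_D(ℚ)` is finite and the `3`-primary part of the Tate-Shafarevich group is trivial -/
def Triv3 (D : ℕ) : Prop := Finite (EQ (WD D)).toAffine.Point ∧
  ∀ (n : ℕ) (x : Sha (EQ (WD D))), 3 ^ n • x = 0 → x = 0

/-- **One direction**: the descent is complete if `NoSplit D`. -/
theorem triv3_of {D : ℕ} (hC : Cls D) (hN : NoSplit D) :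
    Finite (EQ (WD D)).toAffine.Point ∧
    padicValNat 3 (Nat.card (EQ (WD D)).toAffine.Point) = 1 ∧
    ∀ (n : ℕ) (x : Sha (EQ (WD D))), 3 ^ n • x = 0 → x = 0 := by
  have hB := hC.1
  obtain ⟨n, π, e, hdt, hDp⟩ := Pool.Agent.Y274.CT.t_exi D hB
  have hcnt := Pool.Agent.Y274.CT.t_cnt D hC (Fin n) π e hdt hDp
  rw [Fintype.card_fin] at hcnt
  have : Nonempty (Fin n) := ⟨⟨0, by
    have h1 : 0 < D.primeFactors.card := by
      rw [Finset.card_pos]
      obtain ⟨-, -, -, q, hq, -, hqD, -⟩ := hC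
      exact ⟨q, Nat.mem_primeFactors.2 ⟨hq, hqD, hB.1⟩⟩
    omega⟩⟩
  have hrec := Pool.Agent.Y350.CT.rec
  have h9 := nr_nine hC hDp
  exact descQ hdt (Pool.Agent.Y405.CT.cri hrec D hC hN (Fin n) π e hdt hDp) h9 hDp

/-- **The converse.** -/
theorem cnv (D : ℕ) (hC : Cls D) (hN : ¬ NoSplit D)
    (hf : Finite (EQ (WD D)).toAffine.Point) : ∃ x : Sha (EQ (WD D)), 3 • x = 0 ∧ x ≠ 0 := by
  obtain ⟨n, π, e, hdt, hDp⟩ := Pool.Agent.Y274.CT.t_exi D hC.1
  exact Pool.Agent.Y319.CT.t_CONVQ Pool.Agent.Y350.CT.rec Pool.Agent.Y737.CT.odd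
    Pool.Agent.Y894.CT.t_EXT kloc Pool.Agent.Y809.CT.shq Pool.Agent.Y681.CT.Finc.t
    Pool.Agent.Y781.CT.t_LAST Pool.Agent.Y319.CT.t_FF Pool.Agent.Y379.CT.t_CUB
    Pool.Agent.Y100.CT.CUB3.t_cub3 Pool.Agent.Y674.CT.t_PT Pool.Agent.Y379.CT.t_RAMC
    D hC hN (Fin n) π e hdt hDp hf

/-- **Both directions.** -/
theorem triv3_iff {D : ℕ} (hC : Cls D) : Triv3 D ↔ NoSplit D := by
  constructor
  · rintro ⟨h1, h2⟩
    by_contra hN
    obtain ⟨x, hx, hx0⟩ := cnv D hC hN h1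
    exact hx0 (h2 1 x (by rw [pow_one]; exact hx))
  · intro hN
    obtain ⟨h1, h2, h3⟩ := triv3_of hC hN
    exact ⟨h1, h3⟩

end Pool.Agent.R395.CT
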