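import Pool.Agent.Y703.CT.Defs
import Pool.Agent.W960.GA.Comp
import Pool.Agent.Helper566.FD.J7

/-!
# The conditions `Cls` and `NoSplit` are decidable by bounded searches
-/

set_option autoImplicit false

namespace Pool.Agent.R395.CT

open Pool.Agent.Helper446 Pool.Agent.W960.GA
open Pool.Agent.Y703.CT

section

variable {α : Type} [Primcodable α]

@[local fun_prop] theorem ciadd {f g : α → ℤ} (hf : Computable f) (hg : Computable g) :
    Computable (fun x => f x + g x) :=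
  Pool.Agent.Helper566.FD.J7.prim_int_add.to_comp.comp hf hg

@[local fun_prop] theorem cisub {f g : α → ℤ} (hf : Computable f) (hg : Computable g) :
    Computable (fun x => f x - g x) :=
  Pool.Agent.Helper566.FD.J7.prim_int_sub.to_comp.comp hf hg

@[local fun_prop] theorem cimul {f g : α → ℤ} (hf : Computable f) (hg : Computable g) :
    Computable (fun x => f x * g x) :=
  Pool.Agent.Helper566.FD.J7.prim_int_mul.to_comp.comp hf hg

@[local fun_prop] theorem cineg {f : α → ℤ} (hf : Computable f) :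
    Computable (fun x => - f x) :=
  Pool.Agent.Helper566.FD.J7.prim_int_neg.to_comp.comp hf

@[local fun_prop] theorem cicast {f : α → ℕ} (hf : Computable f) :
    Computable (fun x => (f x : ℤ)) :=
  Pool.Agent.Helper566.FD.J7.prim_natCast.to_comp.comp hf

attribute [local fun_prop] cmod

theorem cp_dvd {f g : α → ℕ} (hf : Computable f) (hg : Computable g) :
    ComputablePred fun x => f x ∣ g x := by
  refine cp_of_iff (RE.cp_eq (f := fun x => g x % f x) (g := fun _ => 0) (by fun_prop)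
    (by fun_prop)) fun x => ?_
  exact Nat.dvd_iff_mod_eq_zero

theorem cp_or {p q : α → Prop} (hp : ComputablePred p) (hq : ComputablePred q) :
    ComputablePred fun a => p a ∨ q a :=
  cp_of_iff (cp_not (cp_and (cp_not hp) (cp_not hq))) fun a => by tauto

/-- primality -/
theorem cp_prime {f : α → ℕ} (hf : Computable f) : ComputablePred fun x => (f x).Prime := by
  have h : ComputablePred fun x => 1 < f x ∧ ∀ k < f x, (k ∣ f x → k = 1) := by
    refine cp_and (RE.cp_lt (by fun_prop) (by fun_prop)) ?_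
    refine cp_all_lt (p := fun x k => (k ∣ f x → k = 1)) ?_ (by fun_prop)
    exact cp_imp (cp_dvd (by fun_prop) (by fun_prop)) (RE.cp_eq (by fun_prop) (by fun_prop))
  refine cp_of_iff h fun x => ?_
  constructor
  · intro hp
    refine ⟨hp.one_lt, fun k hk hd => ?_⟩
    rcases (Nat.dvd_prime hp).1 hd with h1 | h1
    · exact h1
    · omega
  · rintro ⟨h1, h2⟩
    rw [Nat.prime_def_lt]
    exact ⟨h1, h2⟩

/-- cube-free, in bounded form -/
theorem cp_cf {f : α → ℕ} (hf : Computable f) :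
    ComputablePred fun x => f x ≠ 0 ∧ ∀ p : ℕ, p.Prime → ¬ p ^ 3 ∣ f x := by
  have h : ComputablePred fun x => (¬ f x = 0) ∧ ∀ k < f x + 1, (k.Prime → ¬ k * k * k ∣ f x) := by
    refine cp_and (cp_not (RE.cp_eq (by fun_prop) (by fun_prop))) ?_
    refine cp_all_lt (p := fun x k => (k.Prime → ¬ k * k * k ∣ f x)) ?_ (by fun_prop)
    exact cp_imp (cp_prime (by fun_prop)) (cp_not (cp_dvd (by fun_prop) (by fun_prop)))
  refine cp_of_iff h fun x => ?_
  have e : ∀ k : ℕ, k ^ 3 = k * k * k := fun k => by ring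
  constructor
  · rintro ⟨h1, h2⟩
    exact ⟨h1, fun k _ hk hd => h2 k hk (by rw [e]; exact hd)⟩
  · rintro ⟨h1, h2⟩
    refine ⟨h1, fun k hk hd => ?_⟩
    have h3 : k ∣ f x := (dvd_pow_self k (by norm_num)).trans hd
    have h4 := Nat.le_of_dvd (Nat.pos_of_ne_zero h1) h3
    exact h2 k (by omega) hk (by rw [← e]; exact hd)

/-- the class of the `D` is decidable -/
theorem cp_Cls {f : α → ℕ} (hf : Computable f) : ComputablePred fun x => Cls (f x) := by
  have h1 : ComputablePred fun x => ∃ q < f x + 1, (q.Prime ∧ q % 3 = 2 ∧ q ∣ f x ∧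
      ∀ p < f x + 1, (p.Prime ∧ p ∣ f x ∧ ¬ p = q → p % 3 = 1)) := by
    refine cp_ex_lt (p := fun x q => (q.Prime ∧ q % 3 = 2 ∧ q ∣ f x ∧
      ∀ p < f x + 1, (p.Prime ∧ p ∣ f x ∧ ¬ p = q → p % 3 = 1))) ?_ (by fun_prop)
    refine cp_and (cp_prime (by fun_prop)) (cp_and (RE.cp_eq (by fun_prop) (by fun_prop))
      (cp_and (cp_dvd (by fun_prop) (by fun_prop)) ?_))
    refine cp_all_lt (p := fun (x : α × ℕ) p => (p.Prime ∧ p ∣ f x.1 ∧ ¬ p = x.2 → p % 3 = 1)) ?_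
      (by fun_prop)
    exact cp_imp (cp_and (cp_prime (by fun_prop)) (cp_and (cp_dvd (by fun_prop) (by fun_prop))
      (cp_not (RE.cp_eq (by fun_prop) (by fun_prop))))) (RE.cp_eq (by fun_prop) (by fun_prop))
  have h2 : ComputablePred fun x => (f x ≠ 0 ∧ ∀ p : ℕ, p.Prime → ¬ p ^ 3 ∣ f x) ∧ (¬ 3 ∣ f x) ∧
      (¬ f x % 9 = 1) ∧ (¬ f x % 9 = 8) ∧ ∃ q < f x + 1, (q.Prime ∧ q % 3 = 2 ∧ q ∣ f x ∧
      ∀ p < f x + 1, (p.Prime ∧ p ∣ f x ∧ ¬ p = q → p % 3 = 1)) := by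
    refine cp_and (cp_cf hf) (cp_and (cp_not (cp_dvd (by fun_prop) (by fun_prop))) (cp_and
      (cp_not (RE.cp_eq (by fun_prop) (by fun_prop))) (cp_and
      (cp_not (RE.cp_eq (by fun_prop) (by fun_prop))) h1)))
  refine cp_of_iff h2 fun x => ?_
  constructor
  · rintro ⟨⟨h3, h4, h5⟩, h6, h7, q, hq, hq3, hqd, hq'⟩
    refine ⟨⟨h3, h5⟩, h4, h6, h7, q, ?_, hq, hq3, hqd, fun p _ hp => hq' p hp.1 hp.2.1 hp.2.2⟩
    have := Nat.le_of_dvd (Nat.pos_of_ne_zero h3) hqd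
    omega
  · rintro ⟨⟨h3, h5⟩, h4, h6, h7, q, -, hq, hq3, hqd, hq'⟩
    refine ⟨⟨h3, h4, h5⟩, h6, h7, q, hq, hq3, hqd, fun p hp hpd hpq => hq' p ?_ ⟨hp, hpd, hpq⟩⟩
    have := Nat.le_of_dvd (Nat.pos_of_ne_zero h3) hpd
    omega

/-! ### `NoSplit` -/

/-- the condition at one factor, bounded -/
def Loc (a n : ℕ) : Prop := ∀ p < a + 1, (p.Prime ∧ p ∣ a → ∃ x < p, n % p = x * x * x % p)

theorem loc_iff {a n : ℕ} (ha : a ≠ 0) :
    Loc a n ↔ ∀ p : ℕ, p.Prime → p ∣ a → ∃ x : ℤ, (p : ℤ) ∣ (n : ℤ) - x ^ 3 := by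
  constructor
  · intro h p hp hpa
    have h1 := Nat.le_of_dvd (Nat.pos_of_ne_zero ha) hpa
    obtain ⟨x, -, hx⟩ := h p (by omega) ⟨hp, hpa⟩
    refine ⟨x, ?_⟩
    have h2 : (n : ℤ) % p = ((x * x * x : ℕ) : ℤ) % p := by exact_mod_cast hx
    have h3 := Int.emod_emod_of_dvd (n : ℤ) (dvd_refl (p : ℤ))
    have h4 : ((p : ℤ)) ∣ (n : ℤ) - ((x * x * x : ℕ) : ℤ) := Int.emod_eq_emod_iff_emod_sub_eq_zero.1 h2 |> Int.dvd_of_emod_eq_zero
    have e : ((x * x * x : ℕ) : ℤ) = (x : ℤ) ^ 3 := by push_cast; ring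
    rw [e] at h4
    exact h4
  · rintro h p - ⟨hp, hpa⟩
    obtain ⟨x, hx⟩ := h p hp hpa
    have hp0 : (p : ℤ) ≠ 0 := by exact_mod_cast hp.ne_zero
    have hpos : (0 : ℤ) < p := by exact_mod_cast hp.pos
    refine ⟨(x % p).toNat, ?_, ?_⟩
    · have h1 := Int.emod_lt_of_pos x hpos
      have h2 := Int.emod_nonneg x hp0
      omega
    · set y := (x % p).toNat with hy
      have h2 : (y : ℤ) = x % p := Int.toNat_of_nonneg (Int.emod_nonneg x hp0)
      have h3 : (p : ℤ) ∣ (n : ℤ) - ((y * y * y : ℕ) : ℤ) := by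
        have h4 : (p : ℤ) ∣ x - y := by
          rw [h2]
          exact Int.dvd_self_sub_emod
        have h5 : (p : ℤ) ∣ x ^ 3 - (y : ℤ) ^ 3 := h4.trans (sub_dvd_pow_sub_pow _ _ 3)
        have e : (n : ℤ) - ((y * y * y : ℕ) : ℤ) = ((n : ℤ) - x ^ 3) + (x ^ 3 - (y : ℤ) ^ 3) := by
          push_cast
          ring
        rw [e]
        exact dvd_add hx h5
      have h6 : (n : ℤ) % p = ((y * y * y : ℕ) : ℤ) % p :=
        Int.emod_eq_emod_iff_emod_sub_eq_zero.2 (Int.emod_eq_zero_of_dvd h3)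
      exact_mod_cast h6

theorem cp_Loc {f g : α → ℕ} (hf : Computable f) (hg : Computable g) :
    ComputablePred fun x => Loc (f x) (g x) := by
  unfold Loc
  refine cp_all_lt (p := fun x p => (p.Prime ∧ p ∣ f x → ∃ y < p, g x % p = y * y * y % p)) ?_
    (by fun_prop)
  refine cp_imp (cp_and (cp_prime (by fun_prop)) (cp_dvd (by fun_prop) (by fun_prop))) ?_
  refine cp_ex_lt (p := fun (x : α × ℕ) y => g x.1 % x.2 = y * y * y % x.2) ?_ (by fun_prop)
  exact RE.cp_eq (by fun_prop) (by fun_prop)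

/-- coprimality, in bounded form -/
theorem cp_cop {f g : α → ℕ} (hf : Computable f) (hg : Computable g) :
    ComputablePred fun x => Nat.Coprime (f x) (g x) := by
  have h : ComputablePred fun x => ∀ k < f x + g x + 1, (k ∣ f x ∧ k ∣ g x → k = 1) := by
    refine cp_all_lt (p := fun x k => (k ∣ f x ∧ k ∣ g x → k = 1)) ?_ (by fun_prop)
    exact cp_imp (cp_and (cp_dvd (by fun_prop) (by fun_prop)) (cp_dvd (by fun_prop) (by fun_prop)))
      (RE.cp_eq (by fun_prop) (by fun_prop))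
  refine cp_of_iff h fun x => ?_
  constructor
  · intro hc k _ hk
    exact Nat.dvd_one.1 (hc ▸ Nat.dvd_gcd hk.1 hk.2)
  · intro hs
    by_cases h0 : f x = 0 ∧ g x = 0
    · have := hs 0 (by omega) (by rw [h0.1, h0.2]; simp)
      omega
    · have h1 : Nat.gcd (f x) (g x) ≤ f x + g x := by
        rcases Nat.eq_zero_or_pos (f x) with h2 | h2
        · have h3 : g x ≠ 0 := fun h3 => h0 ⟨h2, h3⟩
          have := Nat.le_of_dvd (Nat.pos_of_ne_zero h3) (Nat.gcd_dvd_right (f x) (g x))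
          omega
        · have := Nat.le_of_dvd h2 (Nat.gcd_dvd_left (f x) (g x))
          omega
      exact hs _ (by omega) ⟨Nat.gcd_dvd_left _ _, Nat.gcd_dvd_right _ _⟩

/-- the matrix of `NoSplit` -/
def Mat (n a b c : ℕ) : Prop :=
  (a * b * c = n ∧ (a.Coprime b ∧ a.Coprime c ∧ b.Coprime c) ∧ (Loc a (b * (c * c)) ∧
    Loc b (c * (a * a)) ∧ Loc c (a * (b * b)))) →
    ((b = 1 ∧ c = 1) ∨ (a = 1 ∧ c = 1) ∨ (a = 1 ∧ b = 1))

theorem cp_Mat {n a b c : α → ℕ} (hn : Computable n) (ha : Computable a) (hb : Computable b)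
    (hc : Computable c) : ComputablePred fun x => Mat (n x) (a x) (b x) (c x) := by
  unfold Mat
  refine cp_imp (cp_and (RE.cp_eq (by fun_prop) (by fun_prop)) (cp_and (cp_and
    (cp_cop ha hb) (cp_and (cp_cop ha hc) (cp_cop hb hc))) (cp_and (cp_Loc ha (by fun_prop))
    (cp_and (cp_Loc hb (by fun_prop)) (cp_Loc hc (by fun_prop)))))) ?_
  exact cp_or (cp_and (RE.cp_eq (by fun_prop) (by fun_prop)) (RE.cp_eq (by fun_prop)
    (by fun_prop))) (cp_or (cp_and (RE.cp_eq (by fun_prop) (by fun_prop))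
    (RE.cp_eq (by fun_prop) (by fun_prop))) (cp_and (RE.cp_eq (by fun_prop) (by fun_prop))
    (RE.cp_eq (by fun_prop) (by fun_prop))))

theorem noSplit_iff {n : ℕ} (hn : n ≠ 0) :
    NoSplit n ↔ ∀ a < n + 1, ∀ b < n + 1, ∀ c < n + 1, Mat n a b c := by
  have prod3 : ∀ d : ZMod 3 → ℕ, ∏ c, d c = d 0 * d 1 * d 2 := fun d => Fin.prod_univ_three d
  have e12 : (1 : ZMod 3) + 1 = 2 := by decide
  have e13 : (1 : ZMod 3) + 2 = 0 := by decide
  have e21 : (2 : ZMod 3) + 1 = 0 := by decide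
  have e22 : (2 : ZMod 3) + 2 = 1 := by decide
  have e01 : (0 : ZMod 3) + 1 = 1 := by decide
  have e02 : (0 : ZMod 3) + 2 = 2 := by decide
  have n10 : (1 : ZMod 3) ≠ 0 := by decide
  have n20 : (2 : ZMod 3) ≠ 0 := by decide
  have n01 : (0 : ZMod 3) ≠ 1 := by decide
  have n21 : (2 : ZMod 3) ≠ 1 := by decide
  have n02 : (0 : ZMod 3) ≠ 2 := by decide
  have n12 : (1 : ZMod 3) ≠ 2 := by decide
  have all3 : ∀ P : ZMod 3 → Prop, (∀ c, P c) ↔ P 0 ∧ P 1 ∧ P 2 := by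
    intro P
    constructor
    · intro h
      exact ⟨h 0, h 1, h 2⟩
    · rintro ⟨h0, h1, h2⟩ c
      fin_cases c
      · exact h0
      · exact h1
      · exact h2
  constructor
  · intro h a _ b _ c _
    rintro ⟨h1, ⟨h2, h3, h4⟩, h5, h6, h7⟩
    have hne : a ≠ 0 ∧ b ≠ 0 ∧ c ≠ 0 := by
      refine ⟨?_, ?_, ?_⟩ <;> rintro rfl <;> simp at h1 <;> exact hn h1.symm
    rw [loc_iff hne.1] at h5
    rw [loc_iff hne.2.1] at h6
    rw [loc_iff hne.2.2] at h7
    obtain ⟨k, hk⟩ := h ![a, b, c] ((prod3 _).trans h1) (by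
      intro i j hij
      fin_cases i <;> fin_cases j
      · exact absurd rfl hij
      · exact h2
      · exact h3
      · exact h2.symm
      · exact absurd rfl hij
      · exact h4
      · exact h3.symm
      · exact h4.symm
      · exact absurd rfl hij) (by
      intro i p hp hd
      fin_cases i
      · obtain ⟨x, hx⟩ := h5 p hp hd
        refine ⟨x, ?_⟩
        have : ((b * (c * c) : ℕ) : ℤ) - x ^ 3 = (b : ℤ) * (c : ℤ) ^ 2 - x ^ 3 := by
          push_cast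
          ring
        rw [this] at hx
        exact hx
      · obtain ⟨x, hx⟩ := h6 p hp hd
        refine ⟨x, ?_⟩
        have : ((c * (a * a) : ℕ) : ℤ) - x ^ 3 = (c : ℤ) * (a : ℤ) ^ 2 - x ^ 3 := by
          push_cast
          ring
        rw [this] at hx
        exact hx
      · obtain ⟨x, hx⟩ := h7 p hp hd
        refine ⟨x, ?_⟩
        have : ((a * (b * b) : ℕ) : ℤ) - x ^ 3 = (a : ℤ) * (b : ℤ) ^ 2 - x ^ 3 := by
          push_cast
          ring
        rw [this] at hx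
        exact hx)
    fin_cases k
    · exact Or.inl ⟨hk 1 n10, hk 2 n20⟩
    · exact Or.inr (Or.inl ⟨hk 0 n01, hk 2 n21⟩)
    · exact Or.inr (Or.inr ⟨hk 0 n02, hk 1 n12⟩)
  · intro h d hd hcop hloc
    rw [prod3] at hd
    have hne : d 0 ≠ 0 ∧ d 1 ≠ 0 ∧ d 2 ≠ 0 := by
      refine ⟨?_, ?_, ?_⟩ <;> intro h0 <;> rw [h0] at hd <;> simp at hd <;> exact hn hd.symm
    have hdvd : d 0 ∣ n ∧ d 1 ∣ n ∧ d 2 ∣ n := by
      rw [← hd]
      exact ⟨⟨d 1 * d 2, by ring⟩, ⟨d 0 * d 2, by ring⟩, ⟨d 0 * d 1, by ring⟩⟩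
    have hpos := Nat.pos_of_ne_zero hn
    have b0 := Nat.le_of_dvd hpos hdvd.1
    have b1 := Nat.le_of_dvd hpos hdvd.2.1
    have b2 := Nat.le_of_dvd hpos hdvd.2.2
    have h5 : Loc (d 0) (d 1 * (d 2 * d 2)) := (loc_iff hne.1).2 fun p hp hpd => by
      obtain ⟨x, hx⟩ := hloc 0 p hp hpd
      rw [e01, e02] at hx
      refine ⟨x, ?_⟩
      have : ((d 1 * (d 2 * d 2) : ℕ) : ℤ) - x ^ 3 = (d 1 : ℤ) * (d 2 : ℤ) ^ 2 - x ^ 3 := by
        push_cast
        ring
      rw [this]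
      exact hx
    have h6 : Loc (d 1) (d 2 * (d 0 * d 0)) := (loc_iff hne.2.1).2 fun p hp hpd => by
      obtain ⟨x, hx⟩ := hloc 1 p hp hpd
      rw [e12, e13] at hx
      refine ⟨x, ?_⟩
      have : ((d 2 * (d 0 * d 0) : ℕ) : ℤ) - x ^ 3 = (d 2 : ℤ) * (d 0 : ℤ) ^ 2 - x ^ 3 := by
        push_cast
        ring
      rw [this]
      exact hx
    have h7 : Loc (d 2) (d 0 * (d 1 * d 1)) := (loc_iff hne.2.2).2 fun p hp hpd => by
      obtain ⟨x, hx⟩ := hloc 2 p hp hpd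
      rw [e21, e22] at hx
      refine ⟨x, ?_⟩
      have : ((d 0 * (d 1 * d 1) : ℕ) : ℤ) - x ^ 3 = (d 0 : ℤ) * (d 1 : ℤ) ^ 2 - x ^ 3 := by
        push_cast
        ring
      rw [this]
      exact hx
    rcases h (d 0) (by omega) (d 1) (by omega) (d 2) (by omega) ⟨hd, ⟨hcop 0 1 (by decide),
      hcop 0 2 (by decide), hcop 1 2 (by decide)⟩, h5, h6, h7⟩ with ⟨h8, h9⟩ | ⟨h8, h9⟩ | ⟨h8, h9⟩
    · refine ⟨0, (all3 _).2 ⟨fun h => absurd rfl h, fun _ => h8, fun _ => h9⟩⟩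
    · refine ⟨1, (all3 _).2 ⟨fun _ => h8, fun h => absurd rfl h, fun _ => h9⟩⟩
    · refine ⟨2, (all3 _).2 ⟨fun _ => h8, fun _ => h9, fun h => absurd rfl h⟩⟩

theorem cp_CN {f : α → ℕ} (hf : Computable f) :
    ComputablePred fun x => Cls (f x) ∧ NoSplit (f x) := by
  have h : ComputablePred fun x => Cls (f x) ∧
      ∀ a < f x + 1, ∀ b < f x + 1, ∀ c < f x + 1, Mat (f x) a b c := by
    refine cp_and (cp_Cls hf) ?_
    refine cp_all_lt (p := fun x a => ∀ b < f x + 1, ∀ c < f x + 1, Mat (f x) a b c) ?_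
      (by fun_prop)
    refine cp_all_lt (p := fun (x : α × ℕ) b => ∀ c < f x.1 + 1, Mat (f x.1) x.2 b c) ?_
      (by fun_prop)
    refine cp_all_lt (p := fun (x : (α × ℕ) × ℕ) c => Mat (f x.1.1) x.1.2 x.2 c) ?_
      (by fun_prop)
    apply cp_Mat <;> fun_prop
  refine cp_of_iff h fun x => ?_
  constructor
  · rintro ⟨h1, h2⟩
    exact ⟨h1, (noSplit_iff h1.1.1).1 h2⟩
  · rintro ⟨h1, h2⟩
    exact ⟨h1, (noSplit_iff h1.1.1).2 h2⟩

end

end Pool.Agent.R395.CT
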