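import Pool.Agent.R395.CT.Hur
import Pool.Agent.R395.CT.Comp

/-!
# The partial algorithm for the curves `x³ + y³ = A`
-/

set_option autoImplicit false

namespace Pool.Agent.R395.CT

open Pool.Agent.Helper446 Pool.Agent.W960.GA
open Pool.Agent.Y703.CT

/-- cube-free -/
def CF (D : ℕ) : Prop := D ≠ 0 ∧ ∀ p : ℕ, p.Prime → ¬ p ^ 3 ∣ D

/-- the polynomial `x³ + y³ - A` -/
def cubic (A : ℤ) : List (List ℤ) := [[-A, 0, 0, 1], [], [], [1]]

theorem cubic_inj {A B : ℤ} (h : cubic A = cubic B) : A = B := by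
  unfold cubic at h
  injection h with h1 _
  injection h1 with h2 _
  exact neg_injective h2

/-! ### scaling and the cube-free part -/

theorem sol_scale {D m : ℤ} (hm : m ≠ 0) : (Sol (D * m ^ 3)).Infinite ↔ (Sol D).Infinite := by
  have hmq : (m : ℚ) ≠ 0 := by exact_mod_cast hm
  have e : Sol (D * m ^ 3) = (fun p : ℚ × ℚ => ((m : ℚ) * p.1, (m : ℚ) * p.2)) '' Sol D := by
    ext ⟨x, y⟩
    constructor
    · intro h
      have h : x ^ 3 + y ^ 3 = ((D * m ^ 3 : ℤ) : ℚ) := h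
      refine ⟨(x / m, y / m), ?_, ?_⟩
      · show (x / m) ^ 3 + (y / m) ^ 3 = (D : ℚ)
        rw [div_pow, div_pow, ← add_div, h]
        push_cast
        field_simp
      · show ((m : ℚ) * (x / m), (m : ℚ) * (y / m)) = (x, y)
        rw [mul_div_cancel₀ _ hmq, mul_div_cancel₀ _ hmq]
    · rintro ⟨⟨a, b⟩, h, h2⟩
      have h : a ^ 3 + b ^ 3 = (D : ℚ) := h
      simp only [Prod.mk.injEq] at h2
      obtain ⟨rfl, rfl⟩ := h2
      show ((m : ℚ) * a) ^ 3 + ((m : ℚ) * b) ^ 3 = ((D * m ^ 3 : ℤ) : ℚ)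
      push_cast
      rw [← h]
      ring
  rw [e]
  refine Set.infinite_image_iff ?_
  rintro ⟨a, b⟩ - ⟨c, d⟩ - h
  simp only [Prod.mk.injEq] at h
  exact Prod.ext (mul_left_cancel₀ hmq h.1) (mul_left_cancel₀ hmq h.2)

/-- every nonzero natural number is a cube-free number times a cube -/
theorem exists_cf (n : ℕ) (hn : n ≠ 0) : ∃ D m : ℕ, CF D ∧ m ≠ 0 ∧ n = D * m ^ 3 := by
  induction n using Nat.strong_induction_on with
  | _ n ih =>
    by_cases h : ∀ p : ℕ, p.Prime → ¬ p ^ 3 ∣ n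
    · exact ⟨n, 1, ⟨hn, h⟩, one_ne_zero, by simp⟩
    · push Not at h
      obtain ⟨p, hp, k, hk⟩ := h
      have hk0 : k ≠ 0 := by
        rintro rfl
        exact hn (by rw [hk, mul_zero])
      have hlt : k < n := by
        have h1 : 1 < p ^ 3 := Nat.one_lt_pow (by norm_num) hp.one_lt
        rw [hk]
        nlinarith [Nat.pos_of_ne_zero hk0]
      obtain ⟨D, m, hD, hm, e⟩ := ih k hlt hk0
      exact ⟨D, p * m, hD, mul_ne_zero hp.ne_zero hm, by rw [hk, e]; ring⟩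

theorem exists_cf_int (A : ℤ) (hA : A ≠ 0) : ∃ (D : ℕ) (m : ℤ), CF D ∧ m ≠ 0 ∧
    A = (D : ℤ) * m ^ 3 := by
  obtain ⟨D, m, hD, hm, e⟩ := exists_cf A.natAbs (Int.natAbs_ne_zero.2 hA)
  rcases Int.natAbs_eq A with h | h
  · refine ⟨D, m, hD, by exact_mod_cast hm, ?_⟩
    rw [h, e]
    push_cast
    ring
  · refine ⟨D, -m, hD, by simpa using hm, ?_⟩
    rw [h, e]
    push_cast
    ring

theorem CF.unique {D D' : ℕ} (hD : CF D) (hD' : CF D') {m m' : ℤ} (hm : m ≠ 0) (hm' : m' ≠ 0)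
    (h : (D : ℤ) * m ^ 3 = (D' : ℤ) * m' ^ 3) : D = D' := by
  have h1 : D * m.natAbs ^ 3 = D' * m'.natAbs ^ 3 := by
    have := congrArg Int.natAbs h
    rw [Int.natAbs_mul, Int.natAbs_mul, Int.natAbs_pow, Int.natAbs_pow, Int.natAbs_natCast,
      Int.natAbs_natCast] at this
    exact this
  have hn : m.natAbs ≠ 0 := Int.natAbs_ne_zero.2 hm
  have hn' : m'.natAbs ≠ 0 := Int.natAbs_ne_zero.2 hm'
  refine Nat.eq_of_factorization_eq hD.1 hD'.1 fun p => ?_
  by_cases hp : p.Prime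
  · have h2 := congrArg (fun n : ℕ => n.factorization p) h1
    simp only [Nat.factorization_mul hD.1 (pow_ne_zero 3 hn),
      Nat.factorization_mul hD'.1 (pow_ne_zero 3 hn'), Nat.factorization_pow, Finsupp.add_apply,
      Finsupp.smul_apply, smul_eq_mul] at h2
    have h3 : D.factorization p < 3 := by
      by_contra hcon
      exact hD.2 p hp ((hp.pow_dvd_iff_le_factorization hD.1).2 (not_lt.1 hcon))
    have h4 : D'.factorization p < 3 := by
      by_contra hcon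
      exact hD'.2 p hp ((hp.pow_dvd_iff_le_factorization hD'.1).2 (not_lt.1 hcon))
    omega
  · rw [Nat.factorization_eq_zero_of_not_prime _ hp, Nat.factorization_eq_zero_of_not_prime _ hp]

/-! ### `x³ + y³ = 0` and `x³ + y³ = 1` -/

theorem sol_zero : (Sol 0).Infinite := by
  refine Set.infinite_of_injective_forall_mem (f := fun n : ℕ => ((n : ℚ), -(n : ℚ))) ?_ ?_
  · intro a b h
    simp only [Prod.mk.injEq] at h
    exact_mod_cast h.1
  · intro n
    show (n : ℚ) ^ 3 + (-(n : ℚ)) ^ 3 = ((0 : ℤ) : ℚ)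
    push_cast
    ring

theorem sol_one : (Sol 1).Finite := by
  have h : Sol 1 ⊆ {((0 : ℚ), (1 : ℚ)), ((1 : ℚ), (0 : ℚ))} := by
    rintro ⟨x, y⟩ h
    have h : x ^ 3 + y ^ 3 = ((1 : ℤ) : ℚ) := h
    have h1 : x ^ 3 + y ^ 3 = 1 ^ 3 := by rw [h]; norm_num
    have hf : FermatLastTheoremWith ℚ 3 := (fermatLastTheoremFor_iff_rat).1 fermatLastTheoremThree
    by_cases hx : x = 0
    · left
      rw [hx] at h1
      have h2 : y ^ 3 = 1 ^ 3 := by linear_combination h1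
      have h3 : y = 1 := (Odd.strictMono_pow (R := ℚ) (n := 3) (by decide)).injective h2
      rw [hx, h3]
    · by_cases hy : y = 0
      · right
        rw [hy] at h1
        have h2 : x ^ 3 = 1 ^ 3 := by linear_combination h1
        have h3 : x = 1 := (Odd.strictMono_pow (R := ℚ) (n := 3) (by decide)).injective h2
        rw [Set.mem_singleton_iff, h3, hy]
      · exact absurd h1 (hf x y 1 hx hy one_ne_zero)
  exact (Set.toFinite _).subset h

/-! ### the two searches -/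

/-- there is a proof that `x³ + y³ = A` has infinitely many rational solutions: `A = 0`, or
`A = D m³` with `D > 2` cube-free and one rational solution -/
def PInf (L : List (List ℤ)) : Prop :=
  L = cubic 0 ∨ ∃ w : (ℕ × ℤ) × (ℤ × ℤ × ℤ), (CF w.1.1 ∧ 2 < w.1.1) ∧ ¬ w.1.2 = 0 ∧
    L = cubic (w.1.1 * (w.1.2 * w.1.2 * w.1.2)) ∧ ¬ w.2.2.2 = 0 ∧
    w.2.1 * w.2.1 * w.2.1 + w.2.2.1 * w.2.2.1 * w.2.2.1 =
      w.1.1 * (w.2.2.2 * w.2.2.2 * w.2.2.2)

/-- there is a proof that `x³ + y³ = A` has finitely many rational solutions: `A = D m³` with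
`D = 1` or `D` in the class and without splitting -/
def PFin (L : List (List ℤ)) : Prop :=
  ∃ w : ℕ × ℤ, (w.1 = 1 ∨ (Cls w.1 ∧ NoSplit w.1)) ∧ ¬ w.2 = 0 ∧
    L = cubic (w.1 * (w.2 * w.2 * w.2))

section

variable {α : Type} [Primcodable α]

attribute [local fun_prop] ciadd cisub cimul cineg cicast

@[local fun_prop] theorem ccubic {f : α → ℤ} (hf : Computable f) :
    Computable (fun x => cubic (f x)) := by
  unfold cubic
  refine Computable.list_cons.comp (Computable.list_cons.comp (by fun_prop)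
    (Computable.const _)) (Computable.const _)

theorem re_PInf : REPred PInf := by
  unfold PInf
  refine RE.or (RE.eq (by fun_prop) (by fun_prop)) ?_
  refine RE.ex (p := fun (L : List (List ℤ)) (w : (ℕ × ℤ) × (ℤ × ℤ × ℤ)) =>
    (CF w.1.1 ∧ 2 < w.1.1) ∧ ¬ w.1.2 = 0 ∧
    L = cubic (w.1.1 * (w.1.2 * w.1.2 * w.1.2)) ∧ ¬ w.2.2.2 = 0 ∧
    w.2.1 * w.2.1 * w.2.1 + w.2.2.1 * w.2.2.1 * w.2.2.1 =
      w.1.1 * (w.2.2.2 * w.2.2.2 * w.2.2.2)) ?_
  have h1 : ComputablePred fun x : List (List ℤ) × ((ℕ × ℤ) × (ℤ × ℤ × ℤ)) =>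
      CF x.2.1.1 := cp_cf (by fun_prop)
  refine RE.of_comput (cp_and (cp_and h1 (RE.cp_lt (by fun_prop) (by fun_prop)))
    (cp_and (cp_not (RE.cp_eq (by fun_prop) (by fun_prop)))
    (cp_and (RE.cp_eq (by fun_prop) (by fun_prop)) (cp_and
    (cp_not (RE.cp_eq (by fun_prop) (by fun_prop))) (RE.cp_eq (by fun_prop) (by fun_prop))))))

theorem re_PFin : REPred PFin := by
  unfold PFin
  refine RE.ex (p := fun (L : List (List ℤ)) (w : ℕ × ℤ) =>
    (w.1 = 1 ∨ (Cls w.1 ∧ NoSplit w.1)) ∧ ¬ w.2 = 0 ∧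
    L = cubic (w.1 * (w.2 * w.2 * w.2))) ?_
  refine RE.of_comput (cp_and (cp_or (RE.cp_eq (by fun_prop) (by fun_prop))
    (cp_CN (by fun_prop))) (cp_and (cp_not (RE.cp_eq (by fun_prop) (by fun_prop)))
    (RE.cp_eq (by fun_prop) (by fun_prop))))

end

/-- the partial algorithm: it halts if one of the two searches is successful -/
theorem exists_alg : ∃ φ : List (List ℤ) →. Bool, Partrec φ ∧
    (∀ L, (φ L).Dom ↔ PInf L ∨ PFin L) ∧
    ∀ L, ∀ r ∈ φ L, (r = true ∧ PInf L) ∨ (r = false ∧ PFin L) := by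
  have hr : REPred fun x : List (List ℤ) × Bool =>
      (x.2 = true ∧ PInf x.1) ∨ (x.2 = false ∧ PFin x.1) := by
    refine RE.or (RE.and (RE.eq (by fun_prop) (by fun_prop)) (RE.comp re_PInf (by fun_prop)))
      (RE.and (RE.eq (by fun_prop) (by fun_prop)) (RE.comp re_PFin (by fun_prop)))
  obtain ⟨f, hf, h1, h2⟩ := RE.uniformize
    (r := fun (L : List (List ℤ)) (b : Bool) => (b = true ∧ PInf L) ∨ (b = false ∧ PFin L)) hr
  refine ⟨f, hf, fun L => ?_, h2⟩
  rw [h1 L]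
  constructor
  · rintro ⟨b, ⟨-, h⟩ | ⟨-, h⟩⟩
    · exact Or.inl h
    · exact Or.inr h
  · rintro (h | h)
    · exact ⟨true, Or.inl ⟨rfl, h⟩⟩
    · exact ⟨false, Or.inr ⟨rfl, h⟩⟩

/-! ### soundness and completeness -/

theorem pInf_sound {L : List (List ℤ)} (h : PInf L) : ∃ A, L = cubic A ∧ (Sol A).Infinite := by
  rcases h with h | ⟨⟨⟨D, m⟩, x, y, z⟩, ⟨h1, h2⟩, h3, h4, h5, h6⟩
  · exact ⟨0, h, sol_zero⟩
  · simp only at h1 h2 h3 h4 h5 h6
    refine ⟨_, h4, ?_⟩
    have e : (D : ℤ) * (m * m * m) = (D : ℤ) * m ^ 3 := by ring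
    rw [e, sol_scale h3]
    refine sol_infinite (by exact_mod_cast h2) ?_ ⟨((x : ℚ) / z, (y : ℚ) / z), ?_⟩
    · intro p hp hd
      exact h1.2 p hp (by exact_mod_cast hd)
    · show ((x : ℚ) / z) ^ 3 + ((y : ℚ) / z) ^ 3 = ((D : ℤ) : ℚ)
      have hz : (z : ℚ) ≠ 0 := by exact_mod_cast h5
      rw [div_pow, div_pow, ← add_div, div_eq_iff (pow_ne_zero 3 hz)]
      have h7 : x ^ 3 + y ^ 3 = (D : ℤ) * z ^ 3 := by linear_combination h6
      exact_mod_cast h7

/-- completeness of the search for solutions, given the finiteness for `D = 2` -/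
theorem pInf_complete (h2 : (Sol 2).Finite) {A : ℤ} (h : (Sol A).Infinite) : PInf (cubic A) := by
  by_cases hA : A = 0
  · left
    rw [hA]
  · obtain ⟨D, m, hD, hm, e⟩ := exists_cf_int A hA
    rw [e, sol_scale hm] at h
    obtain ⟨⟨X, Y⟩, hp⟩ := h.nonempty
    have hp : X ^ 3 + Y ^ 3 = ((D : ℤ) : ℚ) := hp
    obtain ⟨-, h4⟩ := den_eq hp
    have hD2 : 2 < D := by
      by_contra hcon
      have h5 := hD.1
      have h6 : D = 1 ∨ D = 2 := by omega
      rcases h6 with h6 | h6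
      · rw [h6] at h
        exact h sol_one
      · rw [h6] at h
        exact h h2
    refine Or.inr ⟨⟨⟨D, m⟩, X.num, Y.num, X.den⟩, ⟨hD, hD2⟩, hm, ?_, ?_, ?_⟩
    · show cubic A = cubic ((D : ℤ) * (m * m * m))
      rw [e]
      congr 1
      ring
    · show ¬ (X.den : ℤ) = 0
      exact_mod_cast X.den_nz
    · show X.num * X.num * X.num + Y.num * Y.num * Y.num =
        (D : ℤ) * ((X.den : ℤ) * X.den * X.den)
      linear_combination h4

end Pool.Agent.R395.CT
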