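import Mathlib

/-!
# Hurwitz: a rational point on `x³ + y³ = D` gives infinitely many

For a cube-free integer `D > 2`, if `x³ + y³ = D` has a rational solution, then it has infinitely
many (doubling strictly increases the denominator).
-/

set_option autoImplicit false

namespace Pool.Agent.R395.CT

/-- the rational solutions of `x³ + y³ = D` -/
def Sol (D : ℤ) : Set (ℚ × ℚ) := {p | p.1 ^ 3 + p.2 ^ 3 = (D : ℚ)}

lemma cop (q : ℚ) : IsCoprime q.num (q.den : ℤ) := Int.isCoprime_iff_gcd_eq_one.2 q.reduced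

/-- the two denominators agree -/
lemma den_eq {D : ℤ} {X Y : ℚ} (h : X ^ 3 + Y ^ 3 = (D : ℚ)) : X.den = Y.den ∧
    X.num ^ 3 + Y.num ^ 3 = D * (X.den : ℤ) ^ 3 := by
  have hX : (X.den : ℚ) ≠ 0 := by exact_mod_cast X.den_nz
  have hY : (Y.den : ℚ) ≠ 0 := by exact_mod_cast Y.den_nz
  have eX : X * X.den = X.num := Rat.mul_den_eq_num X
  have eY : Y * Y.den = Y.num := Rat.mul_den_eq_num Y
  have h1 : (X.num : ℚ) ^ 3 * (Y.den : ℚ) ^ 3 + (Y.num : ℚ) ^ 3 * (X.den : ℚ) ^ 3 =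
      (D : ℚ) * (X.den : ℚ) ^ 3 * (Y.den : ℚ) ^ 3 := by
    rw [← eX, ← eY, ← h]
    ring
  have h2 : X.num ^ 3 * (Y.den : ℤ) ^ 3 + Y.num ^ 3 * (X.den : ℤ) ^ 3 =
      D * (X.den : ℤ) ^ 3 * (Y.den : ℤ) ^ 3 := by exact_mod_cast h1
  have c1 : IsCoprime (X.num ^ 3) ((X.den : ℤ) ^ 3) :=
    (cop X).pow
  have c2 : IsCoprime (Y.num ^ 3) ((Y.den : ℤ) ^ 3) :=
    (cop Y).pow
  have d1 : (X.den : ℤ) ^ 3 ∣ (Y.den : ℤ) ^ 3 := by
    refine c1.symm.dvd_of_dvd_mul_left (Dvd.intro (D * (Y.den : ℤ) ^ 3 - Y.num ^ 3) ?_)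
    linear_combination -h2
  have d2 : (Y.den : ℤ) ^ 3 ∣ (X.den : ℤ) ^ 3 := by
    refine c2.symm.dvd_of_dvd_mul_left (Dvd.intro (D * (X.den : ℤ) ^ 3 - X.num ^ 3) ?_)
    linear_combination -h2
  have d1' : X.den ^ 3 ∣ Y.den ^ 3 := by exact_mod_cast d1
  have d2' : Y.den ^ 3 ∣ X.den ^ 3 := by exact_mod_cast d2
  have e : X.den = Y.den := by
    have := Nat.dvd_antisymm d1' d2'
    exact Nat.pow_left_injective (n := 3) (by norm_num) this
  refine ⟨e, ?_⟩
  have hne : ((X.den : ℤ)) ^ 3 ≠ 0 := pow_ne_zero _ (by exact_mod_cast X.den_nz)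
  rw [← e] at h2
  have h3 : (X.num ^ 3 + Y.num ^ 3 - D * (X.den : ℤ) ^ 3) * (X.den : ℤ) ^ 3 = 0 := by
    linear_combination h2
  have := (mul_eq_zero.1 h3).resolve_right hne
  linarith

lemma small {x y : ℤ} (hxy : x ≠ y) (h : |x ^ 3 - y ^ 3| ≤ 3) : x ^ 2 ≤ 4 ∧ y ^ 2 ≤ 4 := by
  have h1 : x ^ 3 - y ^ 3 = (x - y) * (x ^ 2 + x * y + y ^ 2) := by ring
  have h2 : 0 ≤ x ^ 2 + x * y + y ^ 2 := by nlinarith [sq_nonneg (x + y), sq_nonneg x, sq_nonneg y]
  have h3 : 1 ≤ |x - y| := Int.one_le_abs (sub_ne_zero.2 hxy)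
  rw [h1, abs_mul, abs_of_nonneg h2] at h
  have h4 : x ^ 2 + x * y + y ^ 2 ≤ 3 := by nlinarith
  constructor
  · nlinarith [sq_nonneg (x + 2 * y)]
  · nlinarith [sq_nonneg (2 * x + y)]

/-- the key inequality -/
lemma four_le {D x y z : ℤ} (hD : 2 < D) (hz : z ≠ 0) (hxy : IsCoprime x y)
    (h : x ^ 3 + y ^ 3 = D * z ^ 3) : 3 < |x ^ 3 - y ^ 3| := by
  by_contra hcon
  push Not at hcon
  have hz1 : 1 ≤ |z| := Int.one_le_abs hz
  have hDz : 2 < |x ^ 3 + y ^ 3| := by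
    rw [h, abs_mul, abs_pow, abs_of_pos (by omega : (0 : ℤ) < D)]
    have : 1 ≤ |z| ^ 3 := one_le_pow₀ hz1
    nlinarith
  rcases eq_or_ne x y with he | hne
  · subst he
    have hu : IsUnit x := by
      obtain ⟨a, b, hab⟩ := hxy
      exact IsUnit.of_mul_eq_one (a + b) (by linear_combination hab)
    rcases Int.isUnit_iff.1 hu with h1 | h1 <;> rw [h1] at hDz <;> norm_num at hDz
  · obtain ⟨h1, h2⟩ := small hne hcon
    have a1 : -2 ≤ x := by nlinarith
    have a2 : x ≤ 2 := by nlinarith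
    have a3 : -2 ≤ y := by nlinarith
    have a4 : y ≤ 2 := by nlinarith
    interval_cases x <;> interval_cases y <;> revert hcon hDz hne <;> norm_num

/-- doubling increases the denominator -/
lemma double {D : ℤ} (hD : 2 < D) (hcf : ∀ p : ℕ, p.Prime → ¬ (p : ℤ) ^ 3 ∣ D) {X Y : ℚ}
    (h : X ^ 3 + Y ^ 3 = (D : ℚ)) :
    ∃ X' Y' : ℚ, X' ^ 3 + Y' ^ 3 = (D : ℚ) ∧ X.den < X'.den := by
  obtain ⟨e, h1⟩ := den_eq h
  set x := X.num with hx
  set y := Y.num with hy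
  set z : ℤ := (X.den : ℤ) with hz
  have hz0 : z ≠ 0 := by rw [hz]; exact_mod_cast X.den_nz
  have hzpos : 0 < z := by rw [hz]; exact_mod_cast X.den_pos
  have cxz : IsCoprime x z := Int.isCoprime_iff_gcd_eq_one.2 X.reduced
  have cyz : IsCoprime y z := by
    rw [hz, e]
    exact Int.isCoprime_iff_gcd_eq_one.2 Y.reduced
  have cxy : IsCoprime x y := by
    rw [Int.isCoprime_iff_gcd_eq_one]
    by_contra hg
    obtain ⟨p, hp, hpg⟩ := Nat.exists_prime_and_dvd hg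
    have hpx : (p : ℤ) ∣ x := (Int.natCast_dvd_natCast.2 hpg).trans (Int.gcd_dvd_left _ _)
    have hpy : (p : ℤ) ∣ y := (Int.natCast_dvd_natCast.2 hpg).trans (Int.gcd_dvd_right _ _)
    have h2 : (p : ℤ) ^ 3 ∣ D * z ^ 3 := by
      rw [← h1]
      exact dvd_add (pow_dvd_pow_of_dvd hpx 3) (pow_dvd_pow_of_dvd hpy 3)
    have h3 : IsCoprime ((p : ℤ) ^ 3) (z ^ 3) :=
      (IsCoprime.of_isCoprime_of_dvd_left cxz hpx).pow
    exact hcf p hp (h3.dvd_of_dvd_mul_right h2)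
  set n : ℤ := x ^ 3 - y ^ 3 with hn
  have hn4 : 3 < |n| := four_le hD hz0 cxy h1
  have hn0 : n ≠ 0 := by
    intro h0
    rw [h0] at hn4
    norm_num at hn4
  have cnx : IsCoprime n x := by
    have h2 : IsCoprime (y ^ 3) x := cxy.symm.pow_left
    have h3 : n = -(y ^ 3) + x * x ^ 2 := by rw [hn]; ring
    rw [h3]
    exact (IsCoprime.neg_left h2).add_mul_left_left _
  set x' : ℤ := x * (x ^ 3 + 2 * y ^ 3) with hx'
  set y' : ℤ := -(y * (2 * x ^ 3 + y ^ 3)) with hy'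
  set z' : ℤ := z * n with hz'
  have hz'0 : z' ≠ 0 := mul_ne_zero hz0 hn0
  have hq : x' ^ 3 + y' ^ 3 = D * z' ^ 3 := by
    have : x' ^ 3 + y' ^ 3 = (x ^ 3 + y ^ 3) * n ^ 3 := by
      rw [hx', hy', hn]
      ring
    rw [this, h1, hz']
    ring
  have cx'z : IsCoprime x' z := by
    have h2 : IsCoprime (x ^ 4) z := cxz.pow_left
    have h3 : x' = -(x ^ 4) + z * (2 * x * D * z ^ 2) := by
      rw [hx']
      linear_combination 2 * x * h1
    rw [h3]
    exact (IsCoprime.neg_left h2).add_mul_left_left _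
  refine ⟨(x' : ℚ) / z', (y' : ℚ) / z', ?_, ?_⟩
  · have hzq : (z' : ℚ) ≠ 0 := by exact_mod_cast hz'0
    rw [div_pow, div_pow, ← add_div, div_eq_iff (pow_ne_zero _ hzq)]
    exact_mod_cast hq
  · set Q : ℚ := (x' : ℚ) / z' with hQ
    have hzq : (z' : ℚ) ≠ 0 := by exact_mod_cast hz'0
    have h2 : Q * z' = x' := by rw [hQ]; field_simp
    have h3 : Q * Q.den = Q.num := Rat.mul_den_eq_num Q
    have h4 : Q.num * z' = x' * (Q.den : ℤ) := by
      have : (Q.num : ℚ) * z' = x' * (Q.den : ℚ) := by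
        rw [← h3, ← h2]
        ring
      exact_mod_cast this
    set d : ℤ := (Q.den : ℤ) with hd
    have hdpos : 0 < d := by rw [hd]; exact_mod_cast Q.den_pos
    have h5 : z ∣ d := by
      refine cx'z.symm.dvd_of_dvd_mul_left ?_
      rw [← h4, hz']
      exact Dvd.intro (Q.num * n) (by ring)
    obtain ⟨d', hd'⟩ := h5
    have h6 : n ∣ 3 * d' := by
      have h7 : n ∣ x' * d' := by
        refine Dvd.intro_left Q.num ?_
        have h8 : (Q.num * n - x' * d') * z = 0 := by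
          rw [hz', hd'] at h4
          linear_combination h4
        have := (mul_eq_zero.1 h8).resolve_right hz0
        linarith
      have h8 : n ∣ x ^ 4 * (3 * d') := by
        have h9 : x ^ 4 * (3 * d') = x' * d' + n * (2 * x * d') := by
          rw [hx', hn]
          ring
        rw [h9]
        exact dvd_add h7 (dvd_mul_right _ _)
      exact (cnx.pow_right).dvd_of_dvd_mul_left h8
    have hd'pos : 0 < d' := by
      rw [hd'] at hdpos
      exact (pos_iff_pos_of_mul_pos hdpos).1 hzpos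
    have h7 : |n| ≤ 3 * d' := by
      have := Int.le_of_dvd (by positivity) ((abs_dvd _ _).2 h6)
      exact this
    have h8 : 2 ≤ d' := by omega
    have h9 : z < d := by
      rw [hd']
      nlinarith
    rw [hz, hd] at h9
    exact_mod_cast h9

/-- **Hurwitz.** -/
theorem sol_infinite {D : ℤ} (hD : 2 < D) (hcf : ∀ p : ℕ, p.Prime → ¬ (p : ℤ) ^ 3 ∣ D)
    (hne : (Sol D).Nonempty) : (Sol D).Infinite := by
  intro hfin
  obtain ⟨p, hp, hmax⟩ := hfin.exists_maximalFor (fun p : ℚ × ℚ => p.1.den) _ hne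
  obtain ⟨X', Y', h1, h2⟩ := double hD hcf hp
  have h3 := hmax (j := (X', Y')) h1 h2.le
  exact absurd h2 (not_lt.2 h3)

end Pool.Agent.R395.CT
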