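import Pool.Agent.R395.CT.Hur
import Pool.Agent.Y703.CT.Defs

/-!
# Finitely many points on `y² + D y = x³` give finitely many on `x³ + y³ = D`
-/

set_option autoImplicit false

open scoped Classical

namespace Pool.Agent.R395.CT

open Pool.Agent.Y703.CT

theorem WD_disc (D : ℤ) : (WD D).Δ = -27 * D ^ 4 := by
  unfold WD WeierstrassCurve.Δ WeierstrassCurve.b₂ WeierstrassCurve.b₄ WeierstrassCurve.b₆
    WeierstrassCurve.b₈
  ring

theorem eqn_iff {K : Type} [CommRing K] (D : ℤ) (x y : K) :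
    (((WD D).map (Int.castRingHom K)).toAffine.Equation x y) ↔ y ^ 2 + (D : K) * y = x ^ 3 := by
  rw [WeierstrassCurve.Affine.equation_iff]
  simp [WD, WeierstrassCurve.map]

theorem sol_finite {D : ℤ} (hD : D ≠ 0) (h : Finite (EQ (WD D)).toAffine.Point) :
    (Sol D).Finite := by
  have hDQ : (D : ℚ) ≠ 0 := by exact_mod_cast hD
  have hns : ∀ x y : ℚ, y ^ 2 + (D : ℚ) * y = x ^ 3 → (EQ (WD D)).toAffine.Nonsingular x y := by
    intro x y hxy
    have he : (EQ (WD D)).toAffine.Equation x y := (eqn_iff D x y).2 hxy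
    refine (WeierstrassCurve.Affine.equation_iff_nonsingular_of_Δ_ne_zero
      (W := (EQ (WD D)).toAffine) ?_).1 he
    have : (EQ (WD D)).Δ = ((WD D).Δ : ℚ) := by
      rw [WeierstrassCurve.map_Δ]
      rfl
    show (EQ (WD D)).Δ ≠ 0
    rw [this, WD_disc]
    push_cast
    exact mul_ne_zero (by norm_num) (pow_ne_zero 4 hDQ)
  have hq : ∀ q : Sol D, (-(q.1.1 ^ 3)) ^ 2 + (D : ℚ) * (-(q.1.1 ^ 3)) =
      (-(q.1.1 * q.1.2)) ^ 3 := by
    rintro ⟨⟨x, y⟩, hxy⟩
    have hxy : x ^ 3 + y ^ 3 = (D : ℚ) := hxy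
    show (-(x ^ 3)) ^ 2 + (D : ℚ) * (-(x ^ 3)) = (-(x * y)) ^ 3
    rw [← hxy]
    ring
  refine Set.finite_coe_iff.1 (Finite.of_injective (fun q : Sol D =>
    (WeierstrassCurve.Affine.Point.some (-(q.1.1 * q.1.2)) (-(q.1.1 ^ 3)) (hns _ _ (hq q)) :
      (EQ (WD D)).toAffine.Point)) ?_)
  rintro ⟨⟨x, y⟩, h1⟩ ⟨⟨x', y'⟩, h2⟩ h3
  simp only [WeierstrassCurve.Affine.Point.some.injEq, neg_inj] at h3
  have h1 : x ^ 3 + y ^ 3 = (D : ℚ) := h1
  have h2 : x' ^ 3 + y' ^ 3 = (D : ℚ) := h2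
  obtain ⟨-, g2⟩ := h3
  have e1 : x = x' := (Odd.strictMono_pow (R := ℚ) (n := 3) (by decide)).injective g2
  subst e1
  have e2 : y = y' := (Odd.strictMono_pow (R := ℚ) (n := 3) (by decide)).injective
    (show y ^ 3 = y' ^ 3 by linear_combination h1 - h2)
  subst e2
  rfl

lemma noSplit_prime {q : ℕ} (hq : q.Prime) : NoSplit q := by
  intro d hd _ _
  have h1 : ∃ c, d c ≠ 1 := by
    by_contra hcon
    push Not at hcon
    rw [Finset.prod_eq_one fun c _ => hcon c] at hd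
    exact hq.one_lt.ne hd
  obtain ⟨c, hc⟩ := h1
  refine ⟨c, fun c' hc' => ?_⟩
  by_contra h2
  have h3 : d c * d c' ∣ q := by
    rw [← hd, ← Finset.mul_prod_erase _ _ (Finset.mem_univ c)]
    exact mul_dvd_mul_left _ (Finset.dvd_prod_of_mem _
      (Finset.mem_erase.2 ⟨hc', Finset.mem_univ _⟩))
  have h4 : d c = q := ((Nat.dvd_prime hq).1 ((dvd_mul_right _ _).trans h3)).resolve_left hc
  have h5 : d c' = q := ((Nat.dvd_prime hq).1 ((dvd_mul_left _ _).trans h3)).resolve_left h2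
  rw [h4, h5] at h3
  have h6 := Nat.le_of_dvd hq.pos h3
  have := hq.two_le
  nlinarith

lemma cls_prime {q : ℕ} (hq : q.Prime) (h : q % 9 = 2) : Cls q := by
  refine ⟨⟨hq.ne_zero, by omega, fun p hp hd => ?_⟩, by omega, by omega, q, hq, by omega, dvd_rfl,
    fun p hp hd hne => absurd ((Nat.prime_dvd_prime_iff_eq hp hq).1 hd) hne⟩
  have h1 : p ∣ q := (dvd_pow_self p (by norm_num)).trans hd
  have h2 : p = q := (Nat.prime_dvd_prime_iff_eq hp hq).1 h1
  subst h2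
  have h3 := Nat.le_of_dvd hq.pos hd
  have h4 := hq.two_le
  have : p ^ 3 = p * p * p := by ring
  nlinarith [Nat.mul_le_mul h4 h4]

end Pool.Agent.R395.CT
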